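import Pool.Agent.V5helper33.EHS.Stm

/-!
# Project EHS, job CON: a progression is an interval
-/

set_option autoImplicit false

namespace Pool.Agent.V5helper16.EHS

open Finset
open Pool.Agent.V5helper33.EHS (FF S_CON)

theorem t_CON : Pool.Agent.V5helper33.EHS.S_CON := by
  intro q c m h hq hc hm
  classical
  obtain ⟨m', hm'⟩ : ∃ m', m' = (m - c) / q := ⟨_, rfl⟩
  obtain ⟨M, hM⟩ : ∃ M, M = (m + h - c) / q := ⟨_, rfl⟩
  have a1 : q * m' ≤ m - c := by rw [hm']; exact Nat.mul_div_le _ _
  have a2 : m - c < q * (m' + 1) := by rw [hm']; exact Nat.lt_mul_div_succ _ hq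
  have b1 : q * M ≤ m + h - c := by rw [hM]; exact Nat.mul_div_le _ _
  have b2 : m + h - c < q * (M + 1) := by rw [hM]; exact Nat.lt_mul_div_succ _ hq
  have hmM : m' ≤ M := by
    rw [hm', hM]
    exact Nat.div_le_div_right (by omega)
  refine ⟨m', M - m', ?_, fun a T => ?_⟩
  · have hq0 : (0 : ℝ) < q := by exact_mod_cast hq
    have a1' : (q : ℝ) * m' + c ≤ m := by
      have : q * m' + c ≤ m := by omega
      exact_mod_cast this
    have a2' : (m : ℝ) < q * (m' + 1) + c := by
      have : m < q * (m' + 1) + c := by omega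
      exact_mod_cast this
    have b1' : (q : ℝ) * M + c ≤ m + h := by
      have : q * M + c ≤ m + h := by omega
      exact_mod_cast this
    have b2' : (m : ℝ) + h < q * (M + 1) + c := by
      have : m + h < q * (M + 1) + c := by omega
      exact_mod_cast this
    rw [Nat.cast_sub hmM]
    have e : (h : ℝ) / q * q = h := by field_simp
    rw [abs_le]
    constructor
    · have h1 : (-1 : ℝ) * q ≤ ((M : ℝ) - m' - h / q) * q := by
        rw [sub_mul, e]
        nlinarith
      exact le_of_mul_le_mul_right h1 hq0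
    · have h1 : ((M : ℝ) - m' - h / q) * q ≤ 1 * q := by
        rw [sub_mul, e]
        nlinarith
      exact le_of_mul_le_mul_right h1 hq0
  · have hinj : Function.Injective fun k : ℕ => c + q * k := by
      intro x y hxy
      have h1 : q * x = q * y := Nat.add_left_cancel hxy
      exact Nat.eq_of_mul_eq_mul_left hq h1
    rw [← card_image_of_injective _ hinj]
    unfold FF
    congr 1
    ext n
    simp only [mem_filter, mem_image, mem_Ioc]
    constructor
    · rintro ⟨⟨h1, h2⟩, h3, h4⟩
      have h5 : c + q * (n / q) = n := by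
        have := Nat.div_add_mod n q
        omega
      refine ⟨n / q, ⟨⟨?_, ?_⟩, ?_⟩, h5⟩
      · by_contra h6
        have h7 : q * (n / q) ≤ q * m' := Nat.mul_le_mul_left _ (by omega)
        omega
      · have h6 : n / q ≤ M := by
          rw [hM, Nat.le_div_iff_mul_le hq, mul_comm]
          omega
        omega
      · rw [h5]
        exact h4
    · rintro ⟨k, ⟨⟨h1, h2⟩, h3⟩, rfl⟩
      have h4 : q * (m' + 1) ≤ q * k := Nat.mul_le_mul_left _ h1
      have h5 : q * k ≤ q * M := Nat.mul_le_mul_left _ (by omega)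
      refine ⟨⟨by omega, by omega⟩, ?_, h3⟩
      rw [Nat.add_mul_mod_self_left, Nat.mod_eq_of_lt hc]

end Pool.Agent.V5helper16.EHS
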